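import Mathlib

set_option autoImplicit false

namespace Pool.Agent.H.MP_89ce39_al

universe u

open MulOpposite

section L0
variable {M : Type u} [Monoid M]

structure Good (P : Set M) : Prop where
  idem : ∀ p ∈ P, p * p = p
  conj : ∀ p ∈ P, ∀ q ∈ P, p * q * p ∈ P
  sq : ∀ p ∈ P, ∀ q ∈ P, p * q * (p * q) = p * q

def sw (z : M × Mᵐᵒᵖ) : M × Mᵐᵒᵖ := (unop z.2, op z.1)

theorem sw_mul (a b : M × Mᵐᵒᵖ) : sw (a * b) = sw b * sw a := by
  simp [sw]

theorem sw_sw (a : M × Mᵐᵒᵖ) : sw (sw a) = a := by simp [sw]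

def Dg (P : Set M) : Set (M × Mᵐᵒᵖ) := {z | z.1 ∈ P ∧ z.2 = op z.1}

theorem dg_sw {P : Set M} {z : M × Mᵐᵒᵖ} (h : z ∈ Dg P) : sw z = z := by
  obtain ⟨a, b⟩ := z
  obtain ⟨-, h2⟩ := h
  simp only at h2
  subst h2
  simp [sw]

theorem dg_idem {P : Set M} (hP : Good P) {z : M × Mᵐᵒᵖ} (h : z ∈ Dg P) : z * z = z := by
  obtain ⟨a, b⟩ := z
  obtain ⟨h1, h2⟩ := h
  simp only at h1 h2
  subst h2
  simp only [Prod.mk_mul_mk, ← op_mul, hP.idem a h1]

theorem dg_conj {P : Set M} (hP : Good P) {z w : M × Mᵐᵒᵖ} (h : z ∈ Dg P) (h' : w ∈ Dg P) :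
    z * w * z ∈ Dg P := by
  obtain ⟨a, b⟩ := z
  obtain ⟨c, d⟩ := w
  obtain ⟨h1, h2⟩ := h
  obtain ⟨h3, h4⟩ := h'
  simp only at h1 h2 h3 h4
  subst h2 h4
  exact ⟨hP.conj a h1 c h3, by simp only [Prod.mk_mul_mk, ← op_mul, mul_assoc]⟩

theorem dg_sq {P : Set M} (hP : Good P) {z w : M × Mᵐᵒᵖ} (h : z ∈ Dg P) (h' : w ∈ Dg P) :
    z * w * (z * w) = z * w := by
  obtain ⟨a, b⟩ := z
  obtain ⟨c, d⟩ := w
  obtain ⟨h1, h2⟩ := h
  obtain ⟨h3, h4⟩ := h'
  simp only at h1 h2 h3 h4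
  subst h2 h4
  simp only [Prod.mk_mul_mk, ← op_mul, hP.sq a h1 c h3, hP.sq c h3 a h1]

theorem clo {P : Set M} (hP : Good P) {z : M × Mᵐᵒᵖ} (h : z ∈ Subsemigroup.closure (Dg P)) :
    sw z ∈ Subsemigroup.closure (Dg P) ∧ (∀ q ∈ Dg P, z * q * sw z ∈ Dg P) ∧
      (∀ q ∈ Dg P, sw z * q * z ∈ Dg P) ∧ z * sw z ∈ Dg P ∧ sw z * z ∈ Dg P ∧
      z * sw z * z = z := by
  induction h using Subsemigroup.closure_induction with
  | mem z hz =>
    rw [dg_sw hz, dg_idem hP hz, dg_idem hP hz]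
    exact ⟨Subsemigroup.subset_closure hz, fun q hq => dg_conj hP hz hq,
      fun q hq => dg_conj hP hz hq, hz, hz, rfl⟩
  | mul a b _ _ ha hb =>
    obtain ⟨a1, a2, a3, a4, a5, a6⟩ := ha
    obtain ⟨b1, b2, b3, b4, b5, b6⟩ := hb
    rw [sw_mul]
    refine ⟨mul_mem b1 a1, fun q hq => ?_, fun q hq => ?_, ?_, ?_, ?_⟩
    · have := a2 _ (b2 q hq)
      simpa only [mul_assoc] using this
    · have := b3 _ (a3 q hq)
      simpa only [mul_assoc] using this
    · have := a2 _ b4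
      simpa only [mul_assoc] using this
    · have := b3 _ a5
      simpa only [mul_assoc] using this
    · have h := dg_sq hP a5 b4
      calc a * b * (sw b * sw a) * (a * b)
          = (a * sw a * a) * b * (sw b * sw a) * (a * (b * sw b * b)) := by rw [a6, b6]
        _ = a * (sw a * a * (b * sw b) * (sw a * a * (b * sw b))) * b := by
            simp only [mul_assoc]
        _ = (a * sw a * a) * (b * sw b * b) := by rw [h]; simp only [mul_assoc]
        _ = a * b := by rw [a6, b6]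

def S (P : Set M) (_ : Good P) : Type u := Subsemigroup.closure (Dg P)

instance (P : Set M) (hP : Good P) : Semigroup (S P hP) :=
  inferInstanceAs (Semigroup (Subsemigroup.closure (Dg P)))

instance (P : Set M) (hP : Good P) : StarMul (S P hP) where
  star z := ⟨sw z.1, (clo hP z.2).1⟩
  star_involutive z := Subtype.ext (sw_sw z.1)
  star_mul a b := Subtype.ext (sw_mul a.1 b.1)

theorem S_reg (P : Set M) (hP : Good P) (a : S P hP) : a * star a * a = a :=
  Subtype.ext (clo hP a.2).2.2.2.2.2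

def fstS (P : Set M) (hP : Good P) : S P hP →ₙ* M where
  toFun z := z.1.1
  map_mul' _ _ := rfl

def mkS (P : Set M) (hP : Good P) (p : M) (h : p ∈ P) : S P hP :=
  ⟨(p, op p), Subsemigroup.subset_closure ⟨h, rfl⟩⟩

theorem mkS_proj (P : Set M) (hP : Good P) (p : M) (h : p ∈ P) :
    mkS P hP p h * mkS P hP p h = mkS P hP p h ∧ star (mkS P hP p h) = mkS P hP p h :=
  ⟨Subtype.ext (dg_idem hP ⟨h, rfl⟩), Subtype.ext (dg_sw (P := P) ⟨h, rfl⟩)⟩

theorem proj_eq (P : Set M) (hP : Good P) (a : S P hP) (h1 : a * a = a) (h2 : star a = a) :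
    ∃ h : fstS P hP a ∈ P, a = mkS P hP _ h := by
  have h3 : a.1 * sw a.1 ∈ Dg P := (clo hP a.2).2.2.2.1
  have h4 : a * star a = a := by rw [h2, h1]
  have h5 : a.1 * sw a.1 = a.1 := congrArg Subtype.val h4
  rw [h5] at h3
  exact ⟨h3.1, Subtype.ext (Prod.ext rfl h3.2)⟩

theorem mkS_conj (P : Set M) (hP : Good P) (p q : M) (h : p ∈ P) (h' : q ∈ P) :
    mkS P hP (p * q * p) (hP.conj p h q h') = mkS P hP p h * mkS P hP q h' * mkS P hP p h :=
  Subtype.ext (Prod.ext rfl (by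
    change op (p * q * p) = op p * op q * op p
    simp only [← op_mul, mul_assoc]))

end L0

section L1
variable {G : Type u} [Group G] {I T : Type u}

structure Data (L : I → I → WithZero G) (ρ : T → I → I) : Prop where
  refl : ∀ i, L i i = 1
  symm : ∀ i j, L j i = (L i j)⁻¹
  ret : ∀ t k, ρ t (ρ t k) = ρ t k
  tr : ∀ t e k, ρ t e = e → L k e = L k (ρ t k) * L (ρ t k) e
  two : ∀ s t, s ≠ t → (∀ e, ρ t e = e → L e (ρ s e) = 0) ∨
    ∃ p, ρ t p = p ∧ ρ s p = p ∧ ∀ e, ρ t e = e → L e (ρ s e) ≠ 0 → ρ s e = p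

abbrev MM (I G : Type u) [Group G] := Function.End (I → WithZero G)

def θ0 : MM I G := fun _ _ => 0
def θi (L : I → I → WithZero G) (i : I) : MM I G := fun F k => L k i * F i
def θt (L : I → I → WithZero G) (ρ : T → I → I) (t : T) : MM I G :=
  fun F k => L k (ρ t k) * F (ρ t k)

def P0 (L : I → I → WithZero G) (ρ : T → I → I) : Set (MM I G) :=
  {m | m = θ0 ∨ (∃ i, m = θi L i) ∨ ∃ t, m = θt L ρ t}

variable {L : I → I → WithZero G} {ρ : T → I → I}

theorem mul_ap (a b : MM I G) (F : I → WithZero G) (k : I) : (a * b) F k = a (b F) k := rfl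

theorem Data.inv (D : Data L ρ) {i j : I} (h : L i j ≠ 0) : L i j * L j i = 1 := by
  rw [D.symm i j, mul_inv_cancel₀ h]

theorem Data.ne (D : Data L ρ) {i j : I} (h : L i j ≠ 0) : L j i ≠ 0 := by
  rw [D.symm i j]; exact inv_ne_zero h

theorem Data.tr' (D : Data L ρ) (t : T) {e : I} (k : I) (h : ρ t e = e) :
    L e k = L e (ρ t k) * L (ρ t k) k := by
  rw [D.symm k e, D.tr t e k h, mul_inv_rev, ← D.symm, ← D.symm]

theorem zero_mul' {m : MM I G} (hm : m ∈ P0 L ρ) : m * θ0 = θ0 := by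
  rcases hm with rfl | ⟨i, rfl⟩ | ⟨t, rfl⟩ <;> funext F k <;> simp [mul_ap, θ0, θi, θt]

theorem ii (D : Data L ρ) {i j : I} (h : L i j ≠ 0) : θi L i * θi L j * θi L i = θi L i := by
  funext F k
  simp only [mul_ap, θi]
  rw [← mul_assoc (L i j), D.inv h, one_mul]

theorem ii0 {i j : I} (h : L i j = 0) : θi L i * θi L j = θ0 := by
  funext F k
  simp [mul_ap, θi, θ0, h]

theorem it (D : Data L ρ) {t : T} {i : I} (h : L i (ρ t i) ≠ 0) :
    θi L i * θt L ρ t * θi L i = θi L i := by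
  funext F k
  simp only [mul_ap, θi, θt]
  rw [← mul_assoc (L i _), D.inv h, one_mul]

theorem it0 {t : T} {i : I} (h : L i (ρ t i) = 0) : θi L i * θt L ρ t = θ0 := by
  funext F k
  simp [mul_ap, θi, θt, θ0, h]

theorem ti (D : Data L ρ) {t : T} {i : I} (h : L i (ρ t i) ≠ 0) :
    θt L ρ t * θi L i * θt L ρ t = θi L (ρ t i) := by
  funext F k
  simp only [mul_ap, θi, θt]
  rw [D.tr' t i (D.ret t k), D.tr t (ρ t i) k (D.ret t i)]
  simp only [mul_assoc]
  rw [← mul_assoc (L (ρ t i) i), D.inv (D.ne h), one_mul]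

theorem ti0 (D : Data L ρ) {t : T} {i : I} (h : L i (ρ t i) = 0) :
    θt L ρ t * θi L i = θ0 := by
  funext F k
  simp only [mul_ap, θi, θt, θ0]
  rw [D.tr' t i (D.ret t k), D.symm i (ρ t i), h]
  simp

theorem tt (D : Data L ρ) (t : T) : θt L ρ t * θt L ρ t = θt L ρ t := by
  funext F k
  simp only [mul_ap, θt, D.ret, D.refl, one_mul]

theorem i1 (D : Data L ρ) (i : I) : θi L i * θi L i = θi L i := by
  funext F k
  simp only [mul_ap, θi, D.refl, one_mul]

theorem ts (D : Data L ρ) {s t : T} (h : s ≠ t) : θt L ρ t * θt L ρ s = θ0 ∨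
    ∃ p, ρ t p = p ∧ θt L ρ t * θt L ρ s = θi L p := by
  rcases D.two s t h with h | ⟨p, h1, h2, h3⟩
  · left
    funext F k
    simp [mul_ap, θt, θ0, h _ (D.ret t k)]
  · right
    refine ⟨p, h1, ?_⟩
    funext F k
    simp only [mul_ap, θt, θi]
    rw [D.tr t p k h1, D.tr s p (ρ t k) h2]
    by_cases h0 : L (ρ t k) (ρ s (ρ t k)) = 0
    · simp [h0]
    · rw [h3 _ (D.ret t k) h0, D.refl]
      simp only [mul_one, mul_assoc]

theorem pt_fix (D : Data L ρ) {t : T} {p : I} (h : ρ t p = p) :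
    θi L p * θt L ρ t = θi L p := by
  funext F k
  simp only [mul_ap, θi, θt, h, D.refl, one_mul]

theorem z_mul (m : MM I G) : θ0 * m = θ0 := rfl

theorem good (D : Data L ρ) : Good (P0 L ρ) where
  idem := by
    rintro p (rfl | ⟨i, rfl⟩ | ⟨t, rfl⟩)
    · rfl
    · exact i1 D i
    · exact tt D t
  conj := by
    intro p hp q hq
    have hz : (θ0 : MM I G) ∈ P0 L ρ := Or.inl rfl
    rcases id hp with rfl | ⟨i, rfl⟩ | ⟨t, rfl⟩
    · exact hz
    · rcases hq with rfl | ⟨j, rfl⟩ | ⟨s, rfl⟩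
      · rw [zero_mul' hp]; exact hz
      · by_cases h : L i j = 0
        · rw [ii0 h]; exact hz
        · rw [ii D h]; exact hp
      · by_cases h : L i (ρ s i) = 0
        · rw [it0 h]; exact hz
        · rw [it D h]; exact hp
    · rcases hq with rfl | ⟨j, rfl⟩ | ⟨s, rfl⟩
      · rw [zero_mul' hp]; exact hz
      · by_cases h : L j (ρ t j) = 0
        · rw [ti0 D h]; exact hz
        · rw [ti D h]; exact Or.inr (Or.inl ⟨_, rfl⟩)
      · by_cases h : s = t
        · subst h; rw [tt D, tt D]; exact hp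
        · rcases ts D h with h | ⟨p, h1, h⟩
          · rw [h]; exact hz
          · rw [h, pt_fix D h1]; exact Or.inr (Or.inl ⟨_, rfl⟩)
  sq := by
    intro p hp q hq
    rcases id hp with rfl | ⟨i, rfl⟩ | ⟨t, rfl⟩
    · rfl
    · rcases hq with rfl | ⟨j, rfl⟩ | ⟨s, rfl⟩
      · rw [zero_mul' hp]; rfl
      · by_cases h : L i j = 0
        · rw [ii0 h]; rfl
        · rw [← mul_assoc, ii D h]
      · by_cases h : L i (ρ s i) = 0
        · rw [it0 h]; rfl
        · rw [← mul_assoc, it D h]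
    · rcases hq with rfl | ⟨j, rfl⟩ | ⟨s, rfl⟩
      · rw [zero_mul' hp]; rfl
      · by_cases h : L j (ρ t j) = 0
        · rw [ti0 D h]; rfl
        · rw [mul_assoc, ← mul_assoc (θi L j), it D h]
      · by_cases h : s = t
        · subst h; rw [tt D, tt D]
        · rcases ts D h with h | ⟨p, h1, h⟩
          · rw [h]; rfl
          · rw [h, i1 D]

variable {Q : Type u} [Semigroup Q]

structure Gen (L : I → I → WithZero G) (ρ : T → I → I) (x : MM I G → Q) : Prop where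
  idem : ∀ p ∈ P0 L ρ, x p * x p = x p
  sq : ∀ p ∈ P0 L ρ, ∀ q ∈ P0 L ρ, x p * x q * (x p * x q) = x p * x q
  conj : ∀ p ∈ P0 L ρ, ∀ q ∈ P0 L ρ, x p * x q * x p = x (p * q * p)

variable {x : MM I G → Q}

theorem mi (i : I) : θi L i ∈ P0 L ρ := Or.inr (Or.inl ⟨i, rfl⟩)
theorem mt (t : T) : θt L ρ t ∈ P0 L ρ := Or.inr (Or.inr ⟨t, rfl⟩)

theorem Gen.q1 (H : Gen L ρ x) (i : I) : x (θi L i) * x (θi L i) = x (θi L i) := H.idem _ (mi i)

theorem Gen.q2 (H : Gen L ρ x) (D : Data L ρ) {i j : I} (h : L i j ≠ 0) :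
    x (θi L i) * x (θi L j) * x (θi L i) = x (θi L i) := by
  rw [H.conj _ (mi i) _ (mi j), ii D h]

theorem Gen.q3 (H : Gen L ρ x) (D : Data L ρ) {t : T} {i : I} (h : L i (ρ t i) ≠ 0) :
    x (θt L ρ t) * x (θi L i) * x (θt L ρ t) = x (θi L (ρ t i)) := by
  rw [H.conj _ (mt t) _ (mi i), ti D h]

theorem Gen.q4 (H : Gen L ρ x) (D : Data L ρ) {t : T} {e : I} (h : ρ t e = e) :
    x (θi L e) * x (θt L ρ t) = x (θi L e) ∧ x (θt L ρ t) * x (θi L e) = x (θi L e) := by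
  have h1 := H.q3 D (t := t) (i := e) (by rw [h, D.refl]; exact one_ne_zero)
  rw [h] at h1
  have h2 := H.idem _ (mt t)
  constructor
  · conv_lhs => rw [← h1, mul_assoc, h2, h1]
  · conv_lhs => rw [← h1, ← mul_assoc, ← mul_assoc, h2, h1]

theorem Gen.step (H : Gen L ρ x) (D : Data L ρ) {t : T} {k : I} (h : L k (ρ t k) ≠ 0) :
    x (θi L k) * x (θt L ρ t) = x (θi L k) * x (θi L (ρ t k)) ∧
    x (θt L ρ t) * x (θi L k) = x (θi L (ρ t k)) * x (θi L k) := by
  rw [← H.q3 D h]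
  have h1 := H.sq _ (mi k) _ (mt t)
  have h2 := H.sq _ (mt t) _ (mi k)
  simp only [mul_assoc] at h1 h2 ⊢
  exact ⟨h1.symm, h2.symm⟩

theorem Gen.tri (H : Gen L ρ x) (D : Data L ρ) {t : T} {e k : I} (he : ρ t e = e)
    (h : L k (ρ t k) ≠ 0) :
    x (θi L e) * x (θi L (ρ t k)) * x (θi L k) = x (θi L e) * x (θi L k) ∧
    x (θi L k) * x (θi L (ρ t k)) * x (θi L e) = x (θi L k) * x (θi L e) := by
  constructor
  · rw [mul_assoc, ← (H.step D h).2, ← mul_assoc, (H.q4 D he).1]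
  · rw [← (H.step D h).1, mul_assoc, (H.q4 D he).2]

/-- the general conclusion from a coordinatisation -/
theorem Gen.final (H : Gen L ρ x) (D : Data L ρ) (Φ : Q →ₙ* MM I G)
    (hΦ : ∀ p ∈ P0 L ρ, Φ (x p) = p)
    (ind : ∀ C : Q → Prop, (∀ p ∈ P0 L ρ, C (x p)) → (∀ a b, C a → C b → C (a * b)) → ∀ w, C w)
    (ψ : G →ₙ* Q) (r : I → Q) (b : I) (hb : r b = x (θi L b)) (h1 : ψ 1 = x (θi L b))
    (hr : ∀ i j (g : G), L i j = g → r i * x (θi L j) = ψ g * r j)
    (hx : ∀ i, r i * x (θi L i) = r i) (w : Q)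
    (w1 : x (θi L b) * w = w) (w2 : w * x (θi L b) = w)
    (w3 : x (θi L b) = w ∨ ∃ y, x (θi L b) = w * y) : ∃ g, ψ g = w := by
  have key : ∀ w : Q, ∀ k, (∀ F, Φ w F k = 0) ∨
      ∃ (g : G) (j : I), (∀ F, Φ w F k = g * F j) ∧ r k * w = ψ g * r j := by
    refine ind _ ?_ ?_
    · rintro p hp k
      rw [hΦ p hp]
      rcases hp with rfl | ⟨i, rfl⟩ | ⟨t, rfl⟩
      · exact Or.inl fun _ => rfl
      · by_cases h : L k i = 0
        · exact Or.inl fun F => by simp [θi, h]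
        · obtain ⟨g, hg⟩ := WithZero.ne_zero_iff_exists.1 h
          exact Or.inr ⟨g, i, fun F => by simp [θi, hg], hr _ _ _ hg.symm⟩
      · by_cases h : L k (ρ t k) = 0
        · exact Or.inl fun F => by simp [θt, h]
        · obtain ⟨g, hg⟩ := WithZero.ne_zero_iff_exists.1 h
          refine Or.inr ⟨g, ρ t k, fun F => by simp [θt, hg], ?_⟩
          rw [← hr _ _ _ hg.symm, ← hx k, mul_assoc, mul_assoc, (H.step D h).1]
    · intro a c ha hc k
      rw [map_mul]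
      rcases ha k with h | ⟨g, j, h, h'⟩
      · exact Or.inl fun F => by rw [mul_ap, h]
      · rcases hc j with h2 | ⟨g2, l, h2, h2'⟩
        · exact Or.inl fun F => by rw [mul_ap, h, h2, mul_zero]
        · refine Or.inr ⟨g * g2, l, fun F => by rw [mul_ap, h, h2, WithZero.coe_mul, mul_assoc], ?_⟩
          rw [← mul_assoc, h', mul_assoc, h2', map_mul, mul_assoc]
  have hb1 : Φ (x (θi L b)) (fun _ => 1) b = 1 := by
    rw [hΦ _ (mi b)]; simp [θi, D.refl]
  rcases key w b with h | ⟨g, j, h, h'⟩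
  · exfalso
    rcases w3 with e | ⟨y, e⟩
    · rw [e, h] at hb1; exact zero_ne_one hb1
    · rw [e, map_mul, mul_ap, h] at hb1; exact zero_ne_one hb1
  · have h3 : L j b ≠ 0 := by
      intro h0
      have h4 := h (fun _ => 1)
      rw [← w2, map_mul, mul_ap, h, hΦ _ (mi b)] at h4
      simp [θi, h0] at h4
    obtain ⟨g2, hg⟩ := WithZero.ne_zero_iff_exists.1 h3
    refine ⟨g * g2, ?_⟩
    rw [← w2, ← w1, ← hb, h', hb, mul_assoc, hr _ _ _ hg.symm, hb, ← h1, ← map_mul, ← map_mul,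
      mul_one]

end L1

end Pool.Agent.H.MP_89ce39_al
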