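import Pool.Agent.H.MP_89ce39_al.A

set_option autoImplicit false

namespace Pool.Agent.H.MP_89ce39_al

universe u

variable {G : Type u} [Group G] {V I T : Type u}

structure Geo (pt : V → I) (ln : T → I) (Pl : I → Prop) (s1 s2 : T → V)
    (φ : I → V → WithZero G) : Prop where
  cases : ∀ i, (∃ p, i = pt p) ∨ (∃ t, i = ln t) ∨ Pl i
  npt : ∀ p, ¬ Pl (pt p)
  nln : ∀ t, ¬ Pl (ln t)
  ne : ∀ t, s1 t ≠ s2 t
  φpt : ∀ p q, φ (pt p) q ≠ 0 ↔ q = p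
  φpt1 : ∀ p, φ (pt p) p = 1
  φln : ∀ t q, φ (ln t) q ≠ 0 ↔ q = s1 t ∨ q = s2 t
  nonempty : ∀ i, ∃ p, φ i p ≠ 0
  compat : ∀ t k, φ k (s1 t) ≠ 0 → φ k (s2 t) ≠ 0 →
    φ (ln t) (s1 t) * (φ k (s1 t))⁻¹ = φ (ln t) (s2 t) * (φ k (s2 t))⁻¹
  two : ∀ s t, s ≠ t → ¬ ((s1 t = s1 s ∨ s1 t = s2 s) ∧ (s2 t = s1 s ∨ s2 t = s2 s))

open Classical in
noncomputable def Lg (Pl : I → Prop) (φ : I → V → WithZero G) (i j : I) : WithZero G :=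
  if h : (i = j ∨ ¬ Pl i ∨ ¬ Pl j) ∧ ∃ p, φ i p ≠ 0 ∧ φ j p ≠ 0 then
    φ i h.2.choose * (φ j h.2.choose)⁻¹ else 0

open Classical in
noncomputable def ρg (pt : V → I) (ln : T → I) (s1 s2 : T → V) (φ : I → V → WithZero G)
    (t : T) (k : I) : I :=
  if φ k (s1 t) ≠ 0 ∧ φ k (s2 t) = 0 then pt (s1 t)
  else if φ k (s1 t) = 0 ∧ φ k (s2 t) ≠ 0 then pt (s2 t) else ln t

variable {pt : V → I} {ln : T → I} {Pl : I → Prop} {s1 s2 : T → V} {φ : I → V → WithZero G}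

theorem Geo.indep0 (E : Geo pt ln Pl s1 s2 φ) {i j : I} (h : ¬ Pl i) {p q : V}
    (h1 : φ i p ≠ 0) (h2 : φ j p ≠ 0) (h3 : φ i q ≠ 0) (h4 : φ j q ≠ 0) :
    φ i p * (φ j p)⁻¹ = φ i q * (φ j q)⁻¹ := by
  rcases E.cases i with ⟨a, rfl⟩ | ⟨t, rfl⟩ | h'
  · rw [(E.φpt _ _).1 h1, (E.φpt _ _).1 h3]
  · rcases (E.φln _ _).1 h1 with rfl | rfl <;> rcases (E.φln _ _).1 h3 with h5 | h5 <;> subst h5
    · rfl
    · exact E.compat t j h2 h4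
    · exact (E.compat t j h4 h2).symm
    · rfl
  · exact absurd h' h

theorem Geo.indep (E : Geo pt ln Pl s1 s2 φ) {i j : I} (h : i = j ∨ ¬ Pl i ∨ ¬ Pl j) {p q : V}
    (h1 : φ i p ≠ 0) (h2 : φ j p ≠ 0) (h3 : φ i q ≠ 0) (h4 : φ j q ≠ 0) :
    φ i p * (φ j p)⁻¹ = φ i q * (φ j q)⁻¹ := by
  rcases h with rfl | h | h
  · rw [mul_inv_cancel₀ h1, mul_inv_cancel₀ h3]
  · exact E.indep0 h h1 h2 h3 h4
  · have := congrArg (·⁻¹) (E.indep0 h h2 h1 h4 h3)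
    simpa only [mul_inv_rev, inv_inv] using this

theorem Geo.Lspec (E : Geo pt ln Pl s1 s2 φ) {i j : I} (h : i = j ∨ ¬ Pl i ∨ ¬ Pl j) {p : V}
    (h1 : φ i p ≠ 0) (h2 : φ j p ≠ 0) : Lg Pl φ i j = φ i p * (φ j p)⁻¹ := by
  have h3 : (i = j ∨ ¬ Pl i ∨ ¬ Pl j) ∧ ∃ p, φ i p ≠ 0 ∧ φ j p ≠ 0 := ⟨h, p, h1, h2⟩
  rw [Lg, dif_pos h3]
  exact E.indep h h3.2.choose_spec.1 h3.2.choose_spec.2 h1 h2

theorem Lne {i j : I} (h : Lg Pl φ i j ≠ 0) :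
    (i = j ∨ ¬ Pl i ∨ ¬ Pl j) ∧ ∃ p, φ i p ≠ 0 ∧ φ j p ≠ 0 := by
  by_contra h3
  exact h (by rw [Lg, dif_neg h3])

theorem Geo.Lne' (E : Geo pt ln Pl s1 s2 φ) {i j : I} (h : i = j ∨ ¬ Pl i ∨ ¬ Pl j) {p : V}
    (h1 : φ i p ≠ 0) (h2 : φ j p ≠ 0) : Lg Pl φ i j ≠ 0 := by
  rw [E.Lspec h h1 h2]; exact mul_ne_zero h1 (inv_ne_zero h2)

theorem Geo.ρ1 (E : Geo pt ln Pl s1 s2 φ) (t : T) : ρg pt ln s1 s2 φ t (pt (s1 t)) = pt (s1 t) := by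
  have h1 : φ (pt (s1 t)) (s1 t) ≠ 0 := (E.φpt _ _).2 rfl
  have h2 : φ (pt (s1 t)) (s2 t) = 0 := by
    by_contra h; exact E.ne t ((E.φpt _ _).1 h).symm
  rw [ρg, if_pos ⟨h1, h2⟩]

theorem Geo.ρ2 (E : Geo pt ln Pl s1 s2 φ) (t : T) : ρg pt ln s1 s2 φ t (pt (s2 t)) = pt (s2 t) := by
  have h1 : φ (pt (s2 t)) (s2 t) ≠ 0 := (E.φpt _ _).2 rfl
  have h2 : φ (pt (s2 t)) (s1 t) = 0 := by
    by_contra h; exact E.ne t ((E.φpt _ _).1 h)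
  rw [ρg, if_neg (fun h => h.1 h2), if_pos ⟨h2, h1⟩]

theorem ρ3 {t : T} {k : I} (h1 : φ k (s1 t) ≠ 0) (h2 : φ k (s2 t) ≠ 0) :
    ρg pt ln s1 s2 φ t k = ln t := by
  rw [ρg, if_neg (fun h => h2 h.2), if_neg (fun h => h1 h.1)]

theorem Geo.ρ4 (E : Geo pt ln Pl s1 s2 φ) (t : T) : ρg pt ln s1 s2 φ t (ln t) = ln t :=
  ρ3 ((E.φln _ _).2 (Or.inl rfl)) ((E.φln _ _).2 (Or.inr rfl))

theorem ρcases (t : T) (k : I) :
    (φ k (s1 t) ≠ 0 ∧ φ k (s2 t) = 0 ∧ ρg pt ln s1 s2 φ t k = pt (s1 t)) ∨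
    (φ k (s1 t) = 0 ∧ φ k (s2 t) ≠ 0 ∧ ρg pt ln s1 s2 φ t k = pt (s2 t)) ∨
    ((φ k (s1 t) = 0 ↔ φ k (s2 t) = 0) ∧ ρg pt ln s1 s2 φ t k = ln t) := by
  unfold ρg
  by_cases h1 : φ k (s1 t) = 0 <;> by_cases h2 : φ k (s2 t) = 0 <;> simp [h1, h2]

theorem Geo.ρnp (E : Geo pt ln Pl s1 s2 φ) (t : T) (k : I) : ¬ Pl (ρg pt ln s1 s2 φ t k) := by
  rcases ρcases (pt := pt) (ln := ln) (s1 := s1) (s2 := s2) (φ := φ) t k with
    ⟨-, -, h⟩ | ⟨-, -, h⟩ | ⟨-, h⟩ <;> rw [h]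
  exacts [E.npt _, E.npt _, E.nln _]

theorem Geo.ρsub (E : Geo pt ln Pl s1 s2 φ) (t : T) (k : I) {q : V}
    (hq : φ (ρg pt ln s1 s2 φ t k) q ≠ 0) : q = s1 t ∨ q = s2 t := by
  rcases ρcases (pt := pt) (ln := ln) (s1 := s1) (s2 := s2) (φ := φ) t k with
    ⟨-, -, h⟩ | ⟨-, -, h⟩ | ⟨-, h⟩ <;> rw [h] at hq
  exacts [Or.inl ((E.φpt _ _).1 hq), Or.inr ((E.φpt _ _).1 hq), (E.φln _ _).1 hq]

theorem Geo.ρin (E : Geo pt ln Pl s1 s2 φ) (t : T) (k : I) {q : V} (h1 : q = s1 t ∨ q = s2 t)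
    (hq : φ k q ≠ 0) : φ (ρg pt ln s1 s2 φ t k) q ≠ 0 := by
  rcases ρcases (pt := pt) (ln := ln) (s1 := s1) (s2 := s2) (φ := φ) t k with
    ⟨a, b, h⟩ | ⟨a, b, h⟩ | ⟨-, h⟩ <;> rw [h]
  · rcases h1 with rfl | rfl
    · exact (E.φpt _ _).2 rfl
    · exact absurd b hq
  · rcases h1 with rfl | rfl
    · exact absurd a hq
    · exact (E.φpt _ _).2 rfl
  · exact (E.φln _ _).2 h1

theorem Geo.ρout (E : Geo pt ln Pl s1 s2 φ) (t : T) (k : I)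
    (h0 : Lg Pl φ k (ρg pt ln s1 s2 φ t k) ≠ 0) {q : V}
    (hq : φ (ρg pt ln s1 s2 φ t k) q ≠ 0) : φ k q ≠ 0 := by
  obtain ⟨-, p, h1, h2⟩ := Lne h0
  rcases ρcases (pt := pt) (ln := ln) (s1 := s1) (s2 := s2) (φ := φ) t k with
    ⟨a, b, h⟩ | ⟨a, b, h⟩ | ⟨a, h⟩ <;> rw [h] at hq h2
  · rw [(E.φpt _ _).1 hq]; exact a
  · rw [(E.φpt _ _).1 hq]; exact b
  · rcases (E.φln _ _).1 h2 with rfl | rfl <;> rcases (E.φln _ _).1 hq with h5 | h5 <;> subst h5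
    · exact h1
    · exact fun h => h1 (a.2 h)
    · exact fun h => h1 (a.1 h)
    · exact h1

theorem Geo.data (E : Geo pt ln Pl s1 s2 φ) : Data (Lg Pl φ) (ρg pt ln s1 s2 φ) where
  refl i := by
    obtain ⟨p, hp⟩ := E.nonempty i
    rw [E.Lspec (Or.inl rfl) hp hp, mul_inv_cancel₀ hp]
  symm i j := by
    by_cases h : Lg Pl φ i j = 0
    · rw [h, inv_zero]
      by_contra h'
      obtain ⟨a, p, b, c⟩ := Lne h'
      exact E.Lne' (by tauto) c b h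
    · obtain ⟨a, p, b, c⟩ := Lne h
      rw [E.Lspec a b c, E.Lspec (i := j) (j := i) (by tauto) c b, mul_inv_rev, inv_inv]
  ret t k := by
    rcases ρcases (pt := pt) (ln := ln) (s1 := s1) (s2 := s2) (φ := φ) t k with
      ⟨-, -, h⟩ | ⟨-, -, h⟩ | ⟨-, h⟩ <;> rw [h]
    exacts [E.ρ1 t, E.ρ2 t, E.ρ4 t]
  tr t e k he := by
    have ne : ¬ Pl e := he ▸ E.ρnp t e
    by_cases h : Lg Pl φ k e = 0
    · rw [h]
      symm
      by_contra h'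
      obtain ⟨-, p, b, c⟩ := Lne (right_ne_zero_of_mul h')
      exact E.Lne' (Or.inr (Or.inr ne)) (E.ρout t k (left_ne_zero_of_mul h') b) c h
    · obtain ⟨a, p, b, c⟩ := Lne h
      have d := E.ρin t k (E.ρsub t e (he.symm ▸ c)) b
      rw [E.Lspec a b c, E.Lspec (Or.inr (Or.inr (E.ρnp t k))) b d,
        E.Lspec (Or.inr (Or.inr ne)) d c, mul_assoc, ← mul_assoc (_⁻¹), inv_mul_cancel₀ d, one_mul]
  two s t hst := by
    by_cases h : ∃ p, (p = s1 t ∨ p = s2 t) ∧ (p = s1 s ∨ p = s2 s)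
    · right
      obtain ⟨p, a, b⟩ := h
      have fx : ∀ r : T, (p = s1 r ∨ p = s2 r) → ρg pt ln s1 s2 φ r (pt p) = pt p := by
        rintro r (rfl | rfl)
        exacts [E.ρ1 r, E.ρ2 r]
      refine ⟨pt p, fx t a, fx s b, fun e he h0 => ?_⟩
      have u : ∀ q, (q = s1 t ∨ q = s2 t) → (q = s1 s ∨ q = s2 s) → q = p := by
        intro q c d
        by_contra hq
        apply E.two s t hst
        rcases a with a | a <;> rcases c with c | c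
        · exact absurd (c.trans a.symm) hq
        · exact ⟨a ▸ b, c ▸ d⟩
        · exact ⟨c ▸ d, a ▸ b⟩
        · exact absurd (c.trans a.symm) hq
      have u2 : ∀ q, φ (ρg pt ln s1 s2 φ s e) q ≠ 0 → q = p := fun q hq =>
        u q (E.ρsub t e (he.symm ▸ E.ρout s e h0 hq)) (E.ρsub s e hq)
      rcases ρcases (pt := pt) (ln := ln) (s1 := s1) (s2 := s2) (φ := φ) s e with
        ⟨-, -, h⟩ | ⟨-, -, h⟩ | ⟨-, h⟩ <;> rw [h] at u2 ⊢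
      · rw [u2 _ ((E.φpt _ _).2 rfl)]
      · rw [u2 _ ((E.φpt _ _).2 rfl)]
      · exact absurd ((u2 _ ((E.φln _ _).2 (Or.inl rfl))).trans
          (u2 _ ((E.φln _ _).2 (Or.inr rfl))).symm) (E.ne s)
    · left
      intro e he
      by_contra h0
      obtain ⟨-, p, b, c⟩ := Lne h0
      exact h ⟨p, E.ρsub t e (he.symm ▸ b), E.ρsub s e c⟩

variable {Q : Type u} [Semigroup Q] {x : MM I G → Q}

theorem Geo.fix (E : Geo pt ln Pl s1 s2 φ) {t : T} {p : V} (h : φ (ln t) p ≠ 0) :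
    ρg pt ln s1 s2 φ t (pt p) = pt p := by
  rcases (E.φln _ _).1 h with rfl | rfl
  exacts [E.ρ1 t, E.ρ2 t]

theorem Geo.ρat (E : Geo pt ln Pl s1 s2 φ) {t : T} {p : V} {k : I} (h : φ (ln t) p ≠ 0)
    (h' : φ k p ≠ 0) : Lg Pl φ k (ρg pt ln s1 s2 φ t k) ≠ 0 ∧
      (ρg pt ln s1 s2 φ t k = pt p ∨ ρg pt ln s1 s2 φ t k = ln t) := by
  have d := E.ρin t k ((E.φln _ _).1 h) h'
  refine ⟨E.Lne' (Or.inr (Or.inr (E.ρnp t k))) h' d, ?_⟩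
  rcases ρcases (pt := pt) (ln := ln) (s1 := s1) (s2 := s2) (φ := φ) t k with
    ⟨-, -, h⟩ | ⟨-, -, h⟩ | ⟨-, h⟩ <;> rw [h] at d ⊢
  · rw [(E.φpt _ _).1 d]; exact Or.inl rfl
  · rw [(E.φpt _ _).1 d]; exact Or.inl rfl
  · exact Or.inr rfl

theorem Geo.pp (E : Geo pt ln Pl s1 s2 φ) (H : Gen (Lg Pl φ) (ρg pt ln s1 s2 φ) x) {i : I} {p : V}
    (h : φ i p ≠ 0) :
    x (θi (Lg Pl φ) (pt p)) * x (θi (Lg Pl φ) i) * x (θi (Lg Pl φ) (pt p)) =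
      x (θi (Lg Pl φ) (pt p)) ∧
    x (θi (Lg Pl φ) i) * x (θi (Lg Pl φ) (pt p)) * x (θi (Lg Pl φ) i) = x (θi (Lg Pl φ) i) :=
  ⟨H.q2 E.data (E.Lne' (Or.inr (Or.inl (E.npt p))) ((E.φpt _ _).2 rfl) h),
    H.q2 E.data (E.Lne' (Or.inr (Or.inr (E.npt p))) h ((E.φpt _ _).2 rfl))⟩

theorem Geo.key (E : Geo pt ln Pl s1 s2 φ) (H : Gen (Lg Pl φ) (ρg pt ln s1 s2 φ) x) {i j : I}
    (h : i = j ∨ ¬ Pl i ∨ ¬ Pl j) {p : V} (h1 : φ i p ≠ 0) (h2 : φ j p ≠ 0) :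
    x (θi (Lg Pl φ) (pt p)) * x (θi (Lg Pl φ) i) * x (θi (Lg Pl φ) j) =
      x (θi (Lg Pl φ) (pt p)) * x (θi (Lg Pl φ) j) := by
  have D := E.data
  rcases h with rfl | h | h
  · rw [mul_assoc, H.q1]
  · rcases E.cases i with ⟨a, rfl⟩ | ⟨t, rfl⟩ | h'
    · rw [(E.φpt _ _).1 h1, H.q1]
    · obtain ⟨a, b | b⟩ := E.ρat h1 h2
      · have c := (H.tri D (E.ρ4 t) a).1
        rw [b] at c
        rw [mul_assoc, ← c, ← mul_assoc, ← mul_assoc, (E.pp H h1).1]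
      · have c := (H.tri D (E.fix h1) a).1
        rwa [b] at c
    · exact absurd h' h
  · rcases E.cases j with ⟨a, rfl⟩ | ⟨t, rfl⟩ | h'
    · rw [← (E.φpt _ _).1 h2, (E.pp H h1).1, H.q1]
    · obtain ⟨a, b | b⟩ := E.ρat h2 h1
      · have c := (H.tri D (E.ρ4 t) a).2
        rw [b] at c
        rw [mul_assoc, ← c, ← mul_assoc, ← mul_assoc, (E.pp H h1).1]
      · have c := (H.tri D (E.fix h2) a).1
        rw [b] at c a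
        rw [← c, mul_assoc _ (x _), mul_assoc, ← mul_assoc (x (θi _ (ln t))), H.q2 D (D.ne a)]
    · exact absurd h' h

theorem Geo.thru (E : Geo pt ln Pl s1 s2 φ) (H : Gen (Lg Pl φ) (ρg pt ln s1 s2 φ) x) {t : T}
    {k : I} {p q : V} (h1 : φ k (s1 t) ≠ 0) (h2 : φ k (s2 t) ≠ 0) (hp : φ (ln t) p ≠ 0)
    (hq : φ (ln t) q ≠ 0) :
    x (θi (Lg Pl φ) (pt p)) * x (θi (Lg Pl φ) (ln t)) * x (θi (Lg Pl φ) (pt q)) =
      x (θi (Lg Pl φ) (pt p)) * x (θi (Lg Pl φ) k) * x (θi (Lg Pl φ) (pt q)) := by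
  have D := E.data
  have a : Lg Pl φ k (ρg pt ln s1 s2 φ t k) ≠ 0 := (E.ρat ((E.φln _ _).2 (Or.inl rfl)) h1).1
  have c := (H.tri D (E.fix hp) a).1
  have d := (H.tri D (E.fix hq) a).2
  rw [ρ3 h1 h2] at c d a
  have e := H.q2 D (D.ne a)
  rw [← c, mul_assoc _ (x (θi _ k)), ← d]
  conv_lhs => rw [← e]
  simp only [mul_assoc]

open Classical in
noncomputable def unz (z : WithZero G) : G := if h : z ≠ 0 then WithZero.unzero h else 1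

theorem coe_unz {z : WithZero G} (h : z ≠ 0) : ((unz z : G) : WithZero G) = z := by
  rw [unz, dif_pos h, WithZero.coe_unzero]

theorem unz_coe (g : G) : unz (g : WithZero G) = g :=
  WithZero.coe_injective (coe_unz WithZero.coe_ne_zero)

theorem Geo.final (E : Geo pt ln Pl s1 s2 φ) (H : Gen (Lg Pl φ) (ρg pt ln s1 s2 φ) x)
    (conn : ∀ k, Pl k → ∀ f : V → Q, (∀ t, φ k (s1 t) ≠ 0 → φ k (s2 t) ≠ 0 → f (s1 t) = f (s2 t)) →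
      ∀ p q, φ k p ≠ 0 → φ k q ≠ 0 → f p = f q)
    (ψ : G →ₙ* Q) (rp : V → Q) (hrp : ∀ p, rp p * x (θi (Lg Pl φ) (pt p)) = rp p)
    (hl : ∀ t, ψ (unz (φ (ln t) (s1 t))) * rp (s1 t) * x (θi (Lg Pl φ) (ln t)) =
      ψ (unz (φ (ln t) (s2 t))) * rp (s2 t) * x (θi (Lg Pl φ) (ln t))) :
    ∃ r : I → Q, (∀ p, r (pt p) = ψ 1 * rp p) ∧
      (∀ i j (g : G), Lg Pl φ i j = g → r i * x (θi (Lg Pl φ) j) = ψ g * r j) ∧
      ∀ i, r i * x (θi (Lg Pl φ) i) = r i := by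
  have mv : ∀ {i j : I} {p : V}, (i = j ∨ ¬ Pl i ∨ ¬ Pl j) → φ i p ≠ 0 → φ j p ≠ 0 → ∀ g : G,
      Lg Pl φ i j = g → ψ (unz (φ i p)) * rp p * x (θi (Lg Pl φ) i) * x (θi (Lg Pl φ) j) =
        ψ g * (ψ (unz (φ j p)) * rp p * x (θi (Lg Pl φ) j)) := by
    intro i j p a b c g hg
    have e : unz (φ i p) = g * unz (φ j p) := by
      apply WithZero.coe_injective
      rw [WithZero.coe_mul, coe_unz b, coe_unz c, ← hg, E.Lspec a b c, inv_mul_cancel_right₀ c]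
    have k := E.key H a b c
    rw [e, map_mul, ← hrp p]
    simp only [mul_assoc] at k ⊢
    rw [k]
  have HH : ∀ i p q, φ i p ≠ 0 → φ i q ≠ 0 → ψ (unz (φ i p)) * rp p * x (θi (Lg Pl φ) i) =
      ψ (unz (φ i q)) * rp q * x (θi (Lg Pl φ) i) := by
    intro i p q hp hq
    rcases E.cases i with ⟨a, rfl⟩ | ⟨t, rfl⟩ | h'
    · rw [(E.φpt _ _).1 hp, (E.φpt _ _).1 hq]
    · rcases (E.φln _ _).1 hp with rfl | rfl <;> rcases (E.φln _ _).1 hq with h5 | h5 <;> subst h5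
      exacts [rfl, hl t, (hl t).symm, rfl]
    · refine conn i h' (fun p => ψ (unz (φ i p)) * rp p * x (θi (Lg Pl φ) i)) ?_ p q hp hq
      intro t a b
      have a' : φ (ln t) (s1 t) ≠ 0 := (E.φln _ _).2 (Or.inl rfl)
      have b' : φ (ln t) (s2 t) ≠ 0 := (E.φln _ _).2 (Or.inr rfl)
      have ad : ln t = i ∨ ¬ Pl (ln t) ∨ ¬ Pl i := Or.inr (Or.inl (E.nln t))
      obtain ⟨g, hg⟩ := WithZero.ne_zero_iff_exists.1 (E.Lne' ad a' a)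
      have m1 := mv ad a' a g hg.symm
      have m2 := mv ad b' b g hg.symm
      rw [hl t, m2] at m1
      have m3 := congrArg (ψ g⁻¹ * ·) m1
      simp only [← mul_assoc, ← map_mul, inv_mul_cancel, one_mul] at m3
      exact m3.symm
  choose β hβ using E.nonempty
  refine ⟨fun i => ψ (unz (φ i (β i))) * rp (β i) * x (θi (Lg Pl φ) i), fun p => ?_,
    fun i j g hg => ?_, fun i => ?_⟩
  · beta_reduce
    rw [HH _ _ p (hβ _) ((E.φpt _ _).2 rfl), E.φpt1, mul_assoc, hrp, ← WithZero.coe_one, unz_coe]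
  · beta_reduce
    obtain ⟨a, p, b, c⟩ := Lne (Pl := Pl) (φ := φ) (i := i) (j := j)
      (hg ▸ WithZero.coe_ne_zero)
    rw [HH i _ p (hβ _) b, HH j _ p (hβ _) c, mv a b c g hg]
  · beta_reduce
    rw [mul_assoc, H.q1]

end Pool.Agent.H.MP_89ce39_al
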