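import Pool.Agent.H.MP_89ce39_al.B

set_option autoImplicit false

namespace Pool.Agent.H.MP_89ce39_al

universe u

inductive VV (G : Type u) : Type u
  | v (i : Fin 3)
  | e (k : Fin 3) (g : G)

inductive II (G : Type u) : Type u
  | pt (p : VV G)
  | ln (t : Bool × Fin 3 × G)
  | pl (g h : G)

variable {G : Type u} [Group G]

def en : Bool → Fin 3 → Fin 3
  | false, k => ![0, 1, 0] k
  | true, k => ![1, 2, 2] k

def pot (g h : G) (i : Fin 3) : G := ![1, g, g * h] i
def lab (g h : G) (k : Fin 3) : G := ![g, h, g * h] k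

theorem pot_lab (g h : G) (k : Fin 3) : pot g h (en true k) = pot g h (en false k) * lab g h k := by
  fin_cases k <;> simp [pot, lab, en]

theorem en_inj : ∀ (b c : Bool) (k : Fin 3), en b k = en c k → b = c := by decide

def z1 (t : Bool × Fin 3 × G) : VV G := VV.v (en t.1 t.2.1)
def z2 (t : Bool × Fin 3 × G) : VV G := VV.e t.2.1 t.2.2

def IsPl : II G → Prop
  | II.pl _ _ => True
  | _ => False

open Classical in
noncomputable def ph : II G → VV G → WithZero G
  | II.pt p, q => if q = p then 1 else 0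
  | II.ln t, VV.v i => if i = en t.1 t.2.1 then ((cond t.1 t.2.2 1 : G) : WithZero G) else 0
  | II.ln t, VV.e k g => if k = t.2.1 ∧ g = t.2.2 then 1 else 0
  | II.pl g h, VV.v i => (pot g h i : G)
  | II.pl g h, VV.e k g' => if g' = lab g h k then ((pot g h (en false k) : G) : WithZero G) else 0

theorem geo : Geo (II.pt (G := G)) II.ln IsPl z1 z2 ph where
  cases i := by cases i <;> simp [IsPl]
  npt p := by simp [IsPl]
  nln p := by simp [IsPl]
  ne t := by simp [z1, z2]
  φpt p q := by simp [ph]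
  φpt1 p := by simp [ph]
  φln t q := by cases q <;> simp [ph, z1, z2]
  nonempty i := by
    cases i with
    | pt p => exact ⟨p, by simp [ph]⟩
    | ln t => exact ⟨z2 t, by simp [ph, z2]⟩
    | pl g h => exact ⟨VV.v 0, by simp [ph]⟩
  compat t k h1 h2 := by
    obtain ⟨b, k', g'⟩ := t
    cases k with
    | pt p =>
      simp only [ph, z1, z2, ne_eq, ite_eq_right_iff, one_ne_zero, imp_false, not_not] at h1 h2
      rw [← h2] at h1
      cases h1
    | ln s =>
      obtain ⟨c, l, g⟩ := s
      simp only [ph, z1, z2, ne_eq, ite_eq_right_iff, one_ne_zero, imp_false, not_not,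
        WithZero.coe_ne_zero] at h1 h2
      obtain ⟨rfl, rfl⟩ := h2
      obtain rfl := en_inj _ _ _ h1
      simp [ph, z1, z2]
    | pl g h =>
      simp only [ph, z2, ne_eq, ite_eq_right_iff, imp_false, not_not,
        WithZero.coe_ne_zero] at h2
      subst h2
      cases b
      · simp [ph, z1, z2]
      · simp [ph, z1, z2, pot_lab]
  two s t hst := by
    obtain ⟨b, k, g⟩ := s
    obtain ⟨c, l, h⟩ := t
    simp only [z1, z2, VV.v.injEq, reduceCtorEq, or_false, VV.e.injEq, false_or]
    rintro ⟨h1, rfl, rfl⟩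
    exact hst (by rw [en_inj _ _ _ h1])

theorem conn {Q : Type u} (k : II G) (hk : IsPl k) (f : VV G → Q)
    (hf : ∀ t, ph k (z1 t) ≠ 0 → ph k (z2 t) ≠ 0 → f (z1 t) = f (z2 t)) (p q : VV G)
    (hp : ph k p ≠ 0) (hq : ph k q ≠ 0) : f p = f q := by
  cases k with
  | pt p => exact hk.elim
  | ln t => exact hk.elim
  | pl g h =>
    have a : ∀ b k, f (VV.v (en b k)) = f (VV.e k (lab g h k)) := fun b k =>
      hf (b, k, lab g h k) (by simp [ph, z1]) (by simp [ph, z2])
    have c : ∀ i, f (VV.v i) = f (VV.v 0) := by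
      intro i
      fin_cases i
      · rfl
      · exact (a true 0).trans (a false 0).symm
      · exact (a true 2).trans (a false 2).symm
    have d : ∀ p, ph (II.pl g h) p ≠ 0 → f p = f (VV.v 0) := by
      intro p hp
      cases p with
      | v i => exact c i
      | e k g' =>
        simp only [ph, ne_eq, ite_eq_right_iff, imp_false, not_not, WithZero.coe_ne_zero] at hp
        rw [hp, ← a false k, c]
    rw [d p hp, d q hq]

noncomputable abbrev LL : II G → II G → WithZero G := Lg IsPl ph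
noncomputable abbrev RR : (Bool × Fin 3 × G) → II G → II G := ρg II.pt II.ln z1 z2 ph

variable {Q : Type u} [Semigroup Q] {x : MM (II G) G → Q}

theorem main (H : Gen (LL (G := G)) RR x) (Φ : Q →ₙ* MM (II G) G)
    (hΦ : ∀ p ∈ P0 (LL (G := G)) RR, Φ (x p) = p)
    (ind : ∀ C : Q → Prop, (∀ p ∈ P0 (LL (G := G)) RR, C (x p)) →
      (∀ a b, C a → C b → C (a * b)) → ∀ w, C w) :
    ∃ ψ : G →ₙ* Q, Function.Injective ψ ∧ ψ 1 = x (θi LL (II.pt (VV.v 0))) ∧
      ∀ w, x (θi LL (II.pt (VV.v 0))) * w = w → w * x (θi LL (II.pt (VV.v 0))) = w →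
        (x (θi LL (II.pt (VV.v 0))) = w ∨ ∃ y, x (θi LL (II.pt (VV.v 0))) = w * y) →
        ∃ g, ψ g = w := by
  have E := geo (G := G)
  have D := E.data
  set X : II G → Q := fun i => x (θi LL i) with hX
  have XX : ∀ i, X i * X i = X i := H.q1
  have XX' : ∀ i w, X i * (X i * w) = X i * w := fun i w => by rw [← mul_assoc, XX]
  let P : Fin 3 → Q := fun i => X (II.pt (VV.v i))
  let Ee : Fin 3 → G → Q := fun k g => X (II.pt (VV.e k g))
  let Mm : Bool → Fin 3 → G → Q := fun b k g => X (II.ln (b, k, g))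
  have n1 : ∀ t : Bool × Fin 3 × G, ph (II.ln t) (z1 t) ≠ 0 := fun t => (E.φln _ _).2 (Or.inl rfl)
  have n2 : ∀ t : Bool × Fin 3 × G, ph (II.ln t) (z2 t) ≠ 0 := fun t => (E.φln _ _).2 (Or.inr rfl)
  have a1 : ∀ b k g, P (en b k) * Mm b k g * P (en b k) = P (en b k) :=
    fun b k g => (E.pp H (n1 (b, k, g))).1
  have a2 : ∀ b k g, Mm b k g * P (en b k) * Mm b k g = Mm b k g :=
    fun b k g => (E.pp H (n1 (b, k, g))).2
  have a3 : ∀ b k g, Ee k g * Mm b k g * Ee k g = Ee k g :=
    fun b k g => (E.pp H (n2 (b, k, g))).1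
  have a4 : ∀ b k g, Mm b k g * Ee k g * Mm b k g = Mm b k g :=
    fun b k g => (E.pp H (n2 (b, k, g))).2
  obtain ⟨Y, hY⟩ : ∃ Y : Bool → Fin 3 → G → Q, ∀ b k g, Y b k g =
    P (en b k) * Mm b k g * Ee k g * Mm (!b) k g * P (en (!b) k) := ⟨_, fun _ _ _ => rfl⟩
  have YY : ∀ b k g, Y b k g * Y (!b) k g = P (en b k) := by
    intro b k g
    simp only [hY, Bool.not_not]
    calc _ = P (en b k) * Mm b k g * (Ee k g * (Mm (!b) k g * (P (en (!b) k) * P (en (!b) k)) *
          Mm (!b) k g) * Ee k g) * Mm b k g * P (en b k) := by simp only [mul_assoc]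
      _ = P (en b k) * (Mm b k g * Ee k g * Mm b k g) * P (en b k) := by
          rw [XX, a2, a3]; simp only [mul_assoc]
      _ = _ := by rw [a4, a1]
  have PY : ∀ b k g, P (en b k) * Y b k g = Y b k g := by
    intro b k g
    simp only [hY, ← mul_assoc]
    rw [XX]
  have YP : ∀ b k g, Y b k g * P (en (!b) k) = Y b k g := by
    intro b k g
    simp only [hY]
    rw [mul_assoc, XX]
  have Yc : ∀ g h k, Y false k (lab g h k) = P (en false k) * X (II.pl g h) * P (en true k) := by
    intro g h k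
    have b1 : ∀ b, ph (II.pl g h) (z1 (b, k, lab g h k)) ≠ 0 := fun b => by simp [ph, z1]
    have b2 : ∀ b, ph (II.pl g h) (z2 (b, k, lab g h k)) ≠ 0 := fun b => by simp [ph, z2]
    have c1 : P (en false k) * Mm false k (lab g h k) * Ee k (lab g h k) =
        P (en false k) * X (II.pl g h) * Ee k (lab g h k) :=
      E.thru H (b1 false) (b2 false) (n1 _) (n2 _)
    have c2 : Ee k (lab g h k) * Mm true k (lab g h k) * P (en true k) =
        Ee k (lab g h k) * X (II.pl g h) * P (en true k) :=
      E.thru H (b1 true) (b2 true) (n2 _) (n1 _)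
    have c3 : X (II.pl g h) * Ee k (lab g h k) * X (II.pl g h) = X (II.pl g h) :=
      (E.pp H (b2 true)).2
    simp only [hY, Bool.not_false]
    rw [c1]
    calc _ = P (en false k) * X (II.pl g h) *
          (Ee k (lab g h k) * Mm true k (lab g h k) * P (en true k)) := by simp only [mul_assoc]
      _ = P (en false k) * (X (II.pl g h) * Ee k (lab g h k) * X (II.pl g h)) * P (en true k) := by
          rw [c2]; simp only [mul_assoc]
      _ = _ := by rw [c3]
  have tri : ∀ g h, Y false 0 g * Y false 1 h = Y false 2 (g * h) := by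
    intro g h
    have c0 : Y false 0 g = P 0 * X (II.pl g h) * P 1 := Yc g h 0
    have c1 : Y false 1 h = P 1 * X (II.pl g h) * P 2 := Yc g h 1
    have c2 : Y false 2 (g * h) = P 0 * X (II.pl g h) * P 2 := Yc g h 2
    have c3 : X (II.pl g h) * P 1 * X (II.pl g h) = X (II.pl g h) :=
      (E.pp H (p := VV.v 1) (by simp [ph])).2
    rw [c0, c1, c2]
    calc _ = P 0 * (X (II.pl g h) * (P 1 * P 1) * X (II.pl g h)) * P 2 := by simp only [mul_assoc]
      _ = _ := by rw [XX, c3]
  have y0 : ∀ g, Y false 0 g * Y true 0 g = P 0 := fun g => YY false 0 g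
  have y1 : ∀ g, Y true 0 g * Y false 0 g = P 1 := fun g => YY true 0 g
  have y2 : ∀ g, Y false 1 g * Y true 1 g = P 1 := fun g => YY false 1 g
  have p0 : ∀ g, P 0 * Y false 0 g = Y false 0 g := fun g => PY false 0 g
  have p1 : ∀ g, P 1 * Y false 1 g = Y false 1 g := fun g => PY false 1 g
  have p2 : ∀ g, P 0 * Y false 2 g = Y false 2 g := fun g => PY false 2 g
  have q0 : ∀ g, Y false 0 g * P 1 = Y false 0 g := fun g => YP false 0 g
  have e1 : ∀ g h, Y false 0 g * Y true 0 1 * Y false 0 h = Y false 0 (g * h) := by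
    intro g h
    have c1 : Y false 0 h = Y false 0 1 * Y false 1 h * Y true 1 1 := by
      rw [tri, one_mul, ← mul_one h, ← tri, mul_assoc, y2, mul_one, q0]
    rw [c1, ← mul_assoc, ← mul_assoc, mul_assoc _ _ (Y false 0 1), y1, q0, tri, ← mul_one (g * h),
      ← tri, mul_assoc, y2, q0, mul_one]
  obtain ⟨ψ, hψ⟩ : ∃ ψ : G →ₙ* Q, ∀ g, ψ g = Y false 0 g * Y true 0 1 :=
    ⟨{ toFun := fun g => Y false 0 g * Y true 0 1
       map_mul' := fun g h => by rw [← e1]; simp only [mul_assoc] }, fun _ => rfl⟩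
  have ψ1 : ψ 1 = P 0 := (hψ 1).trans (y0 1)
  let rv : Fin 3 → Q := ![P 0, Y false 0 1, Y false 2 1]
  have rvP : ∀ i, rv i * P i = rv i := by
    intro i
    fin_cases i
    · exact XX _
    · exact q0 1
    · exact YP false 2 1
  have rv1 : ∀ i, ψ 1 * rv i = rv i := by
    intro i
    rw [ψ1]
    fin_cases i
    · exact XX _
    · exact p0 1
    · exact p2 1
  have e2 : ∀ g, ψ g * Y false 2 1 = Y false 2 g := by
    intro g
    have c := tri (1 : G) 1
    rw [mul_one] at c
    rw [hψ, ← c, ← mul_assoc, e1, tri, mul_one, mul_one]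
  have rY : ∀ k g, rv (en false k) * Y false k g = ψ g * rv (en true k) := by
    intro k g
    fin_cases k
    · change P 0 * Y false 0 g = ψ g * Y false 0 1
      rw [p0, hψ, e1, mul_one]
    · change Y false 0 1 * Y false 1 g = ψ g * Y false 2 1
      rw [tri, e2, one_mul]
    · change P 0 * Y false 2 g = ψ g * Y false 2 1
      rw [p2, e2]
  let rp : VV G → Q := fun p => match p with
    | VV.v i => rv i
    | VV.e k g => rv (en false k) * Mm false k g * Ee k g
  obtain ⟨r, r1, r2, r3⟩ := E.final H conn ψ rp (by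
    intro p
    cases p with
    | v i => exact rvP i
    | e k g => exact (mul_assoc _ _ _).trans (congrArg _ (XX _))) (by
    rintro ⟨b, k, g⟩
    have u1 : unz (1 : WithZero G) = 1 := unz_coe 1
    cases b
    · simp only [ph, z1, z2, if_true, and_self, cond_false, unz_coe, u1]
      change ψ 1 * rv (en false k) * Mm false k g =
        ψ 1 * (rv (en false k) * Mm false k g * Ee k g) * Mm false k g
      conv_lhs => rw [← a4 false k g]
      simp only [mul_assoc]
    · simp only [ph, z1, z2, if_true, and_self, cond_true, unz_coe, u1]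
      change ψ g * rv (en true k) * Mm true k g =
        ψ 1 * (rv (en false k) * Mm false k g * Ee k g) * Mm true k g
      rw [← rY, ← mul_assoc, ← mul_assoc, rv1]
      conv_rhs => rw [← a2 true k g, ← rvP]
      simp only [hY, Bool.not_false, mul_assoc])
  refine ⟨ψ, fun g h hgh => ?_, ψ1, fun w w1 w2 w3 => ?_⟩
  · have c : Y false 0 g = Y false 0 h := by
      have := congrArg (· * Y false 0 1) hgh
      simpa only [hψ, e1, mul_one] using this
    have v : ∀ g : G, Φ (Y false 0 g) (fun _ => 1) (II.pt (VV.v 0)) = g := by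
      intro g
      simp only [hY, P, Mm, Ee, hX, map_mul, hΦ _ (mi _), mul_ap, θi, mul_one, LL, Bool.not_false]
      rw [show en false 0 = 0 from rfl, show en true 0 = 1 from rfl, D.refl,
        E.Lspec (p := VV.v 0) (Or.inr (Or.inl (E.npt _))) (by simp [ph]) (n1 (false, 0, g)),
        E.Lspec (p := VV.e 0 g) (Or.inr (Or.inl (E.nln _))) (n2 (false, 0, g)) (by simp [ph]),
        E.Lspec (p := VV.e 0 g) (Or.inr (Or.inl (E.npt _))) (by simp [ph]) (n2 (true, 0, g)),
        E.Lspec (p := VV.v 1) (Or.inr (Or.inl (E.nln _))) (n1 (true, 0, g)) (by simp [ph, en])]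
      simp [ph, en]
    have := v g
    rw [c, v] at this
    exact (WithZero.coe_injective this).symm
  · exact H.final D Φ hΦ ind ψ r (II.pt (VV.v 0)) ((r1 _).trans (rv1 0)) ψ1 r2 r3 w w1 w2 w3

end Pool.Agent.H.MP_89ce39_al
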